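import Pool.Agent.H54.CV.V2
import Mathlib.GroupTheory.Index

/-!
# [CCA FV, GT] Subgroups with a bounded orbit almost fix a vertex; a second fixed vertex
-/

set_option autoImplicit false

namespace Pool.Agent.H54.CW

open Pool.Agent.H37.CC Pool.Agent.H54.CP Pool.Agent.H54.CV
open scoped Pointwise Nat

section up

variable {α : Type*} [PartialOrder α]

/-- the maximal number of elements of a chain of the set `A` above `h` -/
noncomputable def hgt (A : Set α) (h : α) : ℕ :=
  sSup {m | ∃ t : Finset α, IsChain (· ≤ ·) (t : Set α) ∧ (∀ k ∈ t, k ∈ A ∧ h < k) ∧ t.card = m}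

theorem hgt_spec {A : Set α} {M : ℕ} (hM : ∀ t : Finset α, IsChain (· ≤ ·) (t : Set α) → (∀ k ∈ t, k ∈ A) → t.card ≤ M)
    (h : α) : (∃ t : Finset α, IsChain (· ≤ ·) (t : Set α) ∧ (∀ k ∈ t, k ∈ A ∧ h < k) ∧ t.card = hgt A h) ∧
      ∀ t : Finset α, IsChain (· ≤ ·) (t : Set α) → (∀ k ∈ t, k ∈ A ∧ h < k) → t.card ≤ hgt A h := by
  have hne : {m | ∃ t : Finset α, IsChain (· ≤ ·) (t : Set α) ∧ (∀ k ∈ t, k ∈ A ∧ h < k) ∧ t.card = m}.Nonempty :=
    ⟨0, ∅, by rw [Finset.coe_empty]; exact Set.subsingleton_empty.isChain, by simp, Finset.card_empty⟩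
  have hbd : BddAbove {m | ∃ t : Finset α, IsChain (· ≤ ·) (t : Set α) ∧ (∀ k ∈ t, k ∈ A ∧ h < k) ∧ t.card = m} := by
    refine ⟨M, ?_⟩
    rintro m ⟨t, h1, h2, rfl⟩
    exact hM t h1 fun k hk => (h2 k hk).1
  exact ⟨Nat.sSup_mem hne hbd, fun t h1 h2 => le_csSup hbd ⟨t, h1, h2, rfl⟩⟩

theorem hgt_lt {A : Set α} {M : ℕ} (hM : ∀ t : Finset α, IsChain (· ≤ ·) (t : Set α) → (∀ k ∈ t, k ∈ A) → t.card ≤ M)
    {h k : α} (hk : k ∈ A) (hlt : h < k) : hgt A k < hgt A h := by
  classical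
  obtain ⟨t, h1, h2, h3⟩ := (hgt_spec hM k).1
  have hkt : k ∉ t := fun h => lt_irrefl k (h2 k h).2
  have h4 := (hgt_spec hM h).2 (insert k t) (by
    rw [Finset.coe_insert]
    exact h1.insert fun y hy _ => Or.inl (h2 y hy).2.le) (by
    intro z hz
    rcases Finset.mem_insert.1 hz with rfl | hz
    · exact ⟨hk, hlt⟩
    · exact ⟨(h2 z hz).1, hlt.trans (h2 z hz).2⟩)
  rw [Finset.card_insert_of_notMem hkt] at h4
  omega

end up

variable {G H : Type} [Group G] [PartialOrder H] [Bas H] [MulAction G H] [BAct G H]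

/-- the half-spaces which separate two points of the orbit -/
def HO (B : Subgroup G) (x : Vtx H) : Set H := {h | ∃ b ∈ B, ∃ b' ∈ B, h ∈ (b • x).U ∧ h ∉ (b' • x).U}

theorem ho_smul {B : Subgroup G} {x : Vtx H} {b : G} (hb : b ∈ B) {h : H} (hh : h ∈ HO B x) : b • h ∈ HO B x := by
  obtain ⟨b1, h1, b2, h2, h3, h4⟩ := hh
  refine ⟨b * b1, B.mul_mem hb h1, b * b2, B.mul_mem hb h2, ?_, ?_⟩
  · rw [mul_smul, smul_mem_smul]
    exact h3
  · rw [mul_smul, smul_mem_smul]
    exact h4

theorem ho_smul_iff {B : Subgroup G} {x : Vtx H} {b : G} (hb : b ∈ B) {h : H} : b • h ∈ HO B x ↔ h ∈ HO B x := by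
  refine ⟨fun h1 => ?_, ho_smul hb⟩
  have h2 := ho_smul (B.inv_mem hb) h1
  rwa [inv_smul_smul] at h2

theorem ho_st {B : Subgroup G} {x : Vtx H} {h : H} (hh : h ∈ HO B x) : st h ∈ HO B x := by
  obtain ⟨b1, h1, b2, h2, h3, h4⟩ := hh
  refine ⟨b2, h2, b1, h1, (b2 • x).st_mem.2 h4, ?_⟩
  rw [(b1 • x).st_mem, not_not]
  exact h3

theorem ho_st_iff {B : Subgroup G} {x : Vtx H} {h : H} : st h ∈ HO B x ↔ h ∈ HO B x := by
  refine ⟨fun h1 => ?_, ho_st⟩
  have h2 := ho_st h1
  rwa [st_st] at h2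

theorem ho_chain {B : Subgroup G} {x : Vtx H} {M : ℕ} (hB : ∀ b ∈ B, ds x (b • x) ≤ M) (t : Finset H)
    (ht : IsChain (· ≤ ·) (t : Set H)) (htA : ∀ k ∈ t, k ∈ HO B x) : t.card ≤ M := by
  rcases t.eq_empty_or_nonempty with h0 | hne
  · rw [h0]
    exact Nat.zero_le _
  obtain ⟨a, ha, hmin⟩ := t.exists_minimal hne
  obtain ⟨c, hc, hmax⟩ := t.exists_maximal hne
  have hleast : ∀ y ∈ t, a ≤ y := by
    intro y hy
    rcases ht.total ha hy with h | h
    · exact h
    · exact hmin hy h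
  have hgreat : ∀ y ∈ t, y ≤ c := by
    intro y hy
    rcases ht.total hy hc with h | h
    · exact h
    · exact hmax hy h
  obtain ⟨b1, hb1, _, _, h1, _⟩ := htA a ha
  obtain ⟨_, _, b2, hb2, _, h2⟩ := htA c hc
  have h3 : ds (b2 • x) (b1 • x) ≤ M := by
    have h4 : ds (b2 • x) (b1 • x) = ds x ((b2⁻¹ * b1) • x) := by
      rw [← Pool.Agent.H54.CV.ds_smul b2 x, smul_smul, mul_inv_cancel_left]
    rw [h4]
    exact hB _ (B.mul_mem (B.inv_mem hb2) hb1)
  refine le_trans ?_ h3
  rw [ds, ← Set.ncard_coe_finset]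
  refine Set.ncard_le_ncard (fun z hz => ⟨(b1 • x).up h1 (hleast z hz), fun h4 => h2 ?_⟩) (diff_fin _ _)
  exact (b2 • x).up h4 (hgreat z hz)

theorem hgt_smul {B : Subgroup G} {x : Vtx H} {b : G} (hb : b ∈ B) (h : H) :
    hgt (HO B x) (b • h) = hgt (HO B x) h := by
  classical
  have key : ∀ {b : G}, b ∈ B → ∀ (h : H) (m : ℕ),
      (∃ t : Finset H, IsChain (· ≤ ·) (t : Set H) ∧ (∀ k ∈ t, k ∈ HO B x ∧ h < k) ∧ t.card = m) →
      ∃ t : Finset H, IsChain (· ≤ ·) (t : Set H) ∧ (∀ k ∈ t, k ∈ HO B x ∧ b • h < k) ∧ t.card = m := by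
    rintro b hb h m ⟨t, h1, h2, h3⟩
    refine ⟨t.image (fun k => b • k), ?_, ?_, ?_⟩
    · rw [Finset.coe_image]
      rintro _ ⟨k, hk, rfl⟩ _ ⟨k', hk', rfl⟩ hne
      rcases h1.total hk hk' with h | h
      · exact Or.inl (smul_le.2 h)
      · exact Or.inr (smul_le.2 h)
    · intro k hk
      obtain ⟨k', hk', rfl⟩ := Finset.mem_image.1 hk
      exact ⟨ho_smul hb (h2 k' hk').1, smul_lt.2 (h2 k' hk').2⟩
    · rw [Finset.card_image_of_injective _ (MulAction.injective b), h3]
  unfold hgt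
  congr 1
  ext m
  constructor
  · intro h1
    have h2 := key (B.inv_mem hb) (b • h) m h1
    rwa [inv_smul_smul] at h2
  · exact key hb h m

/-- (FV) a subgroup of bounded index fixes a vertex near `x` -/
theorem fv {n : ℕ} (hd : Dim H n) (B : Subgroup G) (x : Vtx H) (M : ℕ) (hB : ∀ b ∈ B, ds x (b • x) ≤ M) :
    ∃ B' : Subgroup G, B' ≤ B ∧ B'.relIndex B ≠ 0 ∧ B'.relIndex B ≤ (2 * n)! ∧
      ∃ y : Vtx H, ds x y ≤ n * M ∧ ∀ b ∈ B', b • y = y := by
  classical
  set A := HO B x with hA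
  have hM := ho_chain hB
  have hmono : ∀ {h k : H}, k ∈ A → h < k → hgt A k < hgt A h := fun hk hlt => hgt_lt hM hk hlt
  have hmono' : ∀ {h k : H}, h ∈ A → h < k → hgt A (st h) < hgt A (st k) := by
    intro h k hh hlt
    refine hgt_lt hM (ho_st hh) (lt_of_le_of_ne (st_le hlt.le) fun e => hlt.ne (st_inj e).symm)
  -- the balanced half-spaces
  set Q : Set H := {h | h ∈ A ∧ hgt A h = hgt A (st h)} with hQ
  have hQst : ∀ {h : H}, h ∈ Q → st h ∈ Q := by
    intro h hh
    refine ⟨ho_st hh.1, ?_⟩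
    rw [st_st]
    exact hh.2.symm
  have hQlt : ∀ {h k : H}, h ∈ Q → k ∈ Q → ¬ h < k := by
    intro h k hh hk hlt
    have h1 := hmono hk.1 hlt
    have h2 := hmono' hh.1 hlt
    have h3 := hh.2
    have h4 := hk.2
    omega
  have hQle : ∀ {h k : H}, h ∈ Q → k ∈ Q → h ≤ k → h = k := by
    intro h k hh hk hle
    by_contra hne
    exact hQlt hh hk (lt_of_le_of_ne hle hne)
  have hQx : (Q ∩ x.U).encard ≤ ((n : ℕ) : ℕ∞) := by
    refine encard_le_of_finset fun F hF => ?_
    refine hd F fun h hh k hk hne => ?_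
    have h1 := hF (Finset.mem_coe.2 hh)
    have h2 := hF (Finset.mem_coe.2 hk)
    refine ⟨fun e => hne (hQle h1.1 h2.1 e), fun e => hne (hQle h2.1 h1.1 e).symm, fun e => ?_, fun e => ?_⟩
    · have h3 := hQle h1.1 (hQst h2.1) e
      rw [h3] at h1
      exact x.st_mem.1 h1.2 h2.2
    · have h3 := hQle (hQst h2.1) h1.1 e
      rw [← h3] at h1
      exact x.st_mem.1 h1.2 h2.2
  have hQxf : (Q ∩ x.U).Finite := Set.finite_of_encard_le_coe hQx
  have hQsub : Q ⊆ (Q ∩ x.U) ∪ st '' (Q ∩ x.U) := by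
    intro h hh
    by_cases h1 : h ∈ x.U
    · exact Or.inl ⟨hh, h1⟩
    · exact Or.inr ⟨st h, ⟨hQst hh, x.st_mem.2 h1⟩, st_st h⟩
  have hQf : Q.Finite := (hQxf.union (hQxf.image st)).subset hQsub
  have hQc : Q.ncard ≤ 2 * n := by
    have h1 : (Q ∩ x.U).ncard ≤ n := by
      rw [← hQxf.cast_ncard_eq] at hQx
      exact_mod_cast hQx
    have h2 := Set.ncard_le_ncard hQsub (hQxf.union (hQxf.image st))
    have h3 := Set.ncard_union_le (Q ∩ x.U) (st '' (Q ∩ x.U))
    have h4 := Set.ncard_image_le (f := (st : H → H)) hQxf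
    omega
  -- the action on `Q`
  have hQB : ∀ b ∈ B, ∀ h ∈ Q, b • h ∈ Q := by
    intro b hb h hh
    refine ⟨ho_smul hb hh.1, ?_⟩
    rw [← smul_st, hA, hgt_smul hb, hgt_smul hb]
    exact hh.2
  let act : MulAction B Q :=
    { smul := fun b h => ⟨(b : G) • (h : H), hQB b b.2 h h.2⟩
      one_smul := fun h => Subtype.ext (one_smul G (h : H))
      mul_smul := fun a b h => Subtype.ext (mul_smul (a : G) (b : G) (h : H)) }
  have hact : ∀ (b : B) (h : Q), ((b • h : Q) : H) = (b : G) • (h : H) := fun b h => rfl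
  have : Finite Q := hQf
  set N : Subgroup B := (MulAction.toPermHom B Q).ker with hN
  have hNmem : ∀ b : B, b ∈ N ↔ ∀ h ∈ Q, (b : G) • h = h := by
    intro b
    rw [hN, MonoidHom.mem_ker]
    constructor
    · intro h1 h hh
      have h2 := congrArg (fun e : Equiv.Perm Q => ((e ⟨h, hh⟩ : Q) : H)) h1
      exact h2
    · intro h1
      refine Equiv.ext fun h => Subtype.ext ?_
      exact h1 h h.2
  have hNf : N.FiniteIndex := by
    rw [hN]
    infer_instance
  have hNi : N.index ≤ (2 * n)! := by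
    rw [hN, Subgroup.index_ker]
    have h1 : Nat.card (MulAction.toPermHom B Q).range ≤ Nat.card (Equiv.Perm Q) :=
      Nat.card_le_card_of_injective _ Subtype.val_injective
    refine h1.trans ?_
    rw [Nat.card_perm]
    refine Nat.factorial_le ?_
    rw [Nat.card_coe_set_eq]
    exact hQc
  set B' : Subgroup G := N.map B.subtype with hB'
  have hB'B : B' ≤ B := by
    rintro _ ⟨b, _, rfl⟩
    exact b.2
  have hrel : B'.relIndex B = N.index := by
    rw [Subgroup.relIndex, hB', Subgroup.subgroupOf, Subgroup.comap_map_eq_self_of_injective B.subtype_injective]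
  refine ⟨B', hB'B, ?_, ?_, ?_⟩
  · rw [hrel]
    exact hNf.index_ne_zero
  · rw [hrel]
    exact hNi
  -- the vertex
  have hfix : ∀ b ∈ B', ∀ h ∈ Q, b • h = h := by
    rintro _ ⟨b, hb, rfl⟩ h hh
    exact (hNmem b).1 hb h hh
  set Y : Set H := {h | (h ∈ A ∧ hgt A h < hgt A (st h)) ∨ (h ∈ Q ∧ h ∈ x.U) ∨ (h ∉ A ∧ h ∈ x.U)} with hY
  have hall : ∀ {h : H}, h ∉ A → ∀ {b b' : G}, b ∈ B → b' ∈ B → h ∈ (b • x).U → h ∈ (b' • x).U := by
    intro h hh b b' hb hb' h1
    by_contra h2
    exact hh ⟨b, hb, b', hb', h1, h2⟩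
  have hx1 : ∀ {h : H}, h ∈ x.U ↔ h ∈ ((1 : G) • x).U := by
    intro h
    rw [one_smul]
  have hYv : IsVertex Y := by
    refine ⟨fun h => ?_, fun {h k} hh hk => ?_⟩
    · by_cases hhA : h ∈ A
      · have hsA : st h ∈ A := ho_st hhA
        rcases lt_trichotomy (hgt A h) (hgt A (st h)) with h1 | h1 | h1
        · constructor
          · intro h2 h3
            rcases h2 with h2 | h2 | h2
            · have h4 := h2.2
              rw [st_st] at h4
              omega
            · have h4 := h2.1.2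
              rw [st_st] at h4
              omega
            · exact h2.1 hsA
          · intro h2
            exact absurd (Or.inl ⟨hhA, h1⟩) h2
        · constructor
          · intro h2 h3
            rcases h2 with h2 | h2 | h2
            · have h4 := h2.2
              rw [st_st] at h4
              omega
            · have h5 := x.st_mem.1 h2.2
              rcases h3 with h3 | h3 | h3
              · omega
              · exact h5 h3.2
              · exact h3.1 hhA
            · exact h2.1 hsA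
          · intro h2
            by_cases h3 : h ∈ x.U
            · exact absurd (Or.inr (Or.inl ⟨⟨hhA, h1⟩, h3⟩)) h2
            · exact Or.inr (Or.inl ⟨hQst ⟨hhA, h1⟩, x.st_mem.2 h3⟩)
        · constructor
          · intro h2 h3
            rcases h3 with h3 | h3 | h3
            · omega
            · have := h3.1.2
              omega
            · exact h3.1 hhA
          · intro _
            refine Or.inl ⟨hsA, ?_⟩
            rw [st_st]
            exact h1
      · have hsA : st h ∉ A := fun h1 => hhA (ho_st_iff.1 h1)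
        constructor
        · intro h2 h3
          rcases h2 with h2 | h2 | h2
          · exact hsA h2.1
          · exact hsA h2.1.1
          · rcases h3 with h3 | h3 | h3
            · exact hhA h3.1
            · exact hhA h3.1.1
            · exact x.st_mem.1 h2.2 h3.2
        · intro h2
          refine Or.inr (Or.inr ⟨hsA, x.st_mem.2 fun h3 => h2 (Or.inr (Or.inr ⟨hhA, h3⟩))⟩)
    · rcases eq_or_lt_of_le hk with rfl | hlt
      · exact hh
      by_cases hhA : h ∈ A
      · by_cases hkA : k ∈ A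
        · have h1 := hmono hkA hlt
          have h2 := hmono' hhA hlt
          have h3 : hgt A h ≤ hgt A (st h) := by
            rcases hh with h3 | h3 | h3
            · exact h3.2.le
            · exact h3.1.2.le
            · exact absurd hhA h3.1
          exact Or.inl ⟨hkA, by omega⟩
        · obtain ⟨b, hb, _, _, h1, _⟩ := hhA
          refine Or.inr (Or.inr ⟨hkA, ?_⟩)
          rw [hx1]
          exact hall hkA hb B.one_mem ((b • x).up h1 hk)
      · have h1 : h ∈ x.U := by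
          rcases hh with h3 | h3 | h3
          · exact absurd h3.1 hhA
          · exact absurd h3.1.1 hhA
          · exact h3.2
        have h2 : k ∈ x.U := x.up h1 hk
        by_cases hkA : k ∈ A
        · exfalso
          obtain ⟨_, _, b', hb', _, h4⟩ := hkA
          refine h4 ((b' • x).up ?_ hk)
          exact hall hhA B.one_mem hb' (hx1.1 h1)
        · exact Or.inr (Or.inr ⟨hkA, h2⟩)
  have hYx : Y \ x.U ⊆ A := by
    rintro h ⟨h1 | h1 | h1, h2⟩
    · exact h1.1
    · exact h1.1.1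
    · exact absurd h1.2 h2
  have hYe : (Y \ x.U).encard ≤ ((n * M : ℕ) : ℕ∞) := by
    refine encard_le_of_finset fun F hF => ?_
    have hF' : ∀ h ∈ F, h ∈ Y \ x.U := fun h hh => hF (Finset.mem_coe.2 hh)
    refine card_le_of_chain hd ?_ ?_
    · intro h hh k hk
      constructor
      · intro e
        exact (hYv.one k).1 (hYv.up (hF' h hh).1 e) (hF' k hk).1
      · intro e
        exact (hF' k hk).2 (x.up (x.st_mem.2 (hF' h hh).2) e)
    · intro u hu hc
      exact hM u hc fun k hk => hYx (hF' k (hu hk))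
  have hYf : (Y \ x.U).Finite := Set.finite_of_encard_le_coe hYe
  let y : Vtx H :=
    { U := Y
      isV := hYv
      fin := by
        refine (hYf.union x.fin).subset ?_
        rintro h ⟨h1, h2⟩
        by_cases h3 : h ∈ x.U
        · exact Or.inr ⟨h3, h2⟩
        · exact Or.inl ⟨h1, h3⟩ }
  refine ⟨y, ?_, ?_⟩
  · have h1 : (Y \ x.U).ncard ≤ n * M := by
      rw [← hYf.cast_ncard_eq] at hYe
      exact_mod_cast hYe
    exact h1
  · intro b hb
    have hbB := hB'B hb
    have hQb : ∀ {h : H}, h ∈ Q → b⁻¹ • h = h := by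
      intro h hh
      conv_lhs => rw [← hfix b hb h hh]
      rw [inv_smul_smul]
    have hAb : ∀ {h : H}, b⁻¹ • h ∈ A ↔ h ∈ A := fun {h} => ho_smul_iff (B.inv_mem hbB)
    have hgb : ∀ h : H, hgt A (b⁻¹ • h) = hgt A h := fun h => hgt_smul (B.inv_mem hbB) h
    have hQb' : ∀ {h : H}, b⁻¹ • h ∈ Q ↔ h ∈ Q := by
      intro h
      rw [hQ, Set.mem_ofPred_eq, Set.mem_ofPred_eq, hAb, ← smul_st, hgb, hgb]
    refine Vtx.ext' fun h => ?_
    rw [mem_smul]
    show ((b⁻¹ • h ∈ A ∧ hgt A (b⁻¹ • h) < hgt A (st (b⁻¹ • h))) ∨ (b⁻¹ • h ∈ Q ∧ b⁻¹ • h ∈ x.U) ∨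
      (b⁻¹ • h ∉ A ∧ b⁻¹ • h ∈ x.U)) ↔
      ((h ∈ A ∧ hgt A h < hgt A (st h)) ∨ (h ∈ Q ∧ h ∈ x.U) ∨ (h ∉ A ∧ h ∈ x.U))
    rw [hAb, ← smul_st, hgb, hgb, hQb']
    refine or_congr Iff.rfl (or_congr (and_congr_right fun h1 => ?_) (and_congr_right fun h1 => ?_))
    · rw [hQb h1]
    · constructor
      · intro h2
        have h3 : h ∈ (b • x).U := h2
        rw [hx1]
        exact hall h1 hbB B.one_mem h3
      · intro h2
        have h3 : h ∈ (b • x).U := hall h1 B.one_mem hbB (hx1.1 h2)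
        exact h3

/-- (GT) a group which fixes a vertex `y` and moves a half-space `w` only to crossing half-spaces fixes a second vertex -/
theorem gt {n : ℕ} (hd : Dim H n) (B : Subgroup G) (y : Vtx H) (hy : ∀ b ∈ B, b • y = y) (w : H) (hw : w ∉ y.U)
    (hB : ∀ b ∈ B, b • w = w ∨ Crs (b • w) w) : ∃ z : Vtx H, (∀ b ∈ B, b • z = z) ∧ dep y w ≤ ds y z := by
  classical
  have hyw : ∀ b ∈ B, b • w ∉ y.U := by
    intro b hb h1
    rw [← hy b hb, smul_mem_smul] at h1
    exact hw h1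
  have hpair : ∀ a ∈ B, ∀ b ∈ B, a • w = b • w ∨ Crs (a • w) (b • w) := by
    intro a ha b hb
    rcases hB (b⁻¹ * a) (B.mul_mem (B.inv_mem hb) ha) with h | h
    · left
      rw [mul_smul] at h
      rw [← smul_inv_smul b (a • w), h]
    · right
      rw [mul_smul] at h
      rw [← smul_inv_smul b (a • w)]
      exact (crs_smul b).2 h
  -- the orbit is finite
  set O : Set H := {h | ∃ b ∈ B, h = b • w} with hO
  have hOe : O.encard ≤ ((n : ℕ) : ℕ∞) := by
    refine encard_le_of_finset fun F hF => ?_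
    refine hd F fun h hh k hk hne => ?_
    obtain ⟨a, ha, rfl⟩ := hF (Finset.mem_coe.2 hh)
    obtain ⟨b, hb, rfl⟩ := hF (Finset.mem_coe.2 hk)
    exact (hpair a ha b hb).resolve_left hne
  have hOf : O.Finite := Set.finite_of_encard_le_coe hOe
  set U : Set H := {k | k ∉ y.U ∧ ∃ b ∈ B, b • w ≤ k} with hU
  have hUf : U.Finite := by
    refine (hOf.biUnion fun h _ => dep_fin y h).subset ?_
    rintro k ⟨h1, b, hb, h2⟩
    exact Set.mem_biUnion (x := b • w) ⟨b, hb, rfl⟩ ⟨h2, h1⟩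
  obtain ⟨z, hz⟩ := exists_mv y hUf (fun h hh => hh.1)
    (fun h hh k hle hk => by
      obtain ⟨_, b, hb, h2⟩ := hh
      exact ⟨hk, b, hb, h2.trans hle⟩)
    (by
      rintro h ⟨_, a, ha, h2⟩ k ⟨_, b, hb, h4⟩ hle
      have h5 : a • w ≤ st (b • w) := (h2.trans hle).trans (st_le h4)
      rcases hpair a ha b hb with h6 | h6
      · rw [h6] at h5
        exact Poc.not_le _ h5
      · exact h6.2.2.1 h5)
  refine ⟨z, ?_, ?_⟩
  · intro b hb
    refine eq_of_diff (x := y) ?_
    have h1 : (b • z).U \ y.U = (b • z).U \ (b • y).U := by rw [hy b hb]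
    rw [h1, hz, diff_smul, hz]
    ext k
    rw [Set.mem_smul_set_iff_inv_smul_mem]
    have hby : b⁻¹ • y = y := hy b⁻¹ (B.inv_mem hb)
    constructor
    · rintro ⟨h2, a, ha, h3⟩
      refine ⟨fun h4 => h2 ?_, b * a, B.mul_mem hb ha, ?_⟩
      · rw [← hby, smul_mem_smul]
        exact h4
      · rw [mul_smul, ← smul_inv_smul b k]
        exact smul_le.2 h3
    · rintro ⟨h2, a, ha, h3⟩
      refine ⟨fun h4 => h2 ?_, b⁻¹ * a, B.mul_mem (B.inv_mem hb) ha, ?_⟩
      · rw [← hby, smul_mem_smul] at h4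
        exact h4
      · rw [mul_smul]
        exact smul_le.2 h3
  · rw [ds, hz, dep]
    refine Set.ncard_le_ncard (fun k hk => ⟨hk.2, 1, B.one_mem, ?_⟩) hUf
    rw [one_smul]
    exact hk.1

end Pool.Agent.H54.CW
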